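import Pool.Agent.R518.RS.Asym

/-!
# The remainder sums `S(2^n, n)/n^2` do not tend to `1 - π²/12`
-/

set_option autoImplicit false

open Filter Topology

namespace Pool.Agent.Results.MP_17736e_nt.NotTheLimit

/-- `S n k` is the sum over `1 ≤ i ≤ k` of the remainder of `n` upon division by `i`. -/
def S (n k : ℕ) : ℕ := ∑ i ∈ Finset.Icc 1 k, n % i

/-- For infinitely many `n` one has `S(2^n, n) ≥ 0.185 n²`. -/
theorem frequently_large (n₀ : ℕ) : ∃ n, n₀ ≤ n ∧ 0.185 * (n : ℝ) ^ 2 ≤ (S (2 ^ n) n : ℝ) :=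
  R518.RS.freq n₀

/-- The sequence `S(2^n, n)/n²` does not tend to `1 - π²/12 = 0.1775...`. -/
theorem result :
    ¬ Tendsto (fun n : ℕ => (S (2 ^ n) n : ℝ) / (n : ℝ) ^ 2) atTop (𝓝 (1 - Real.pi ^ 2 / 12)) := by
  intro h
  have hpi : 3.14 < Real.pi := Real.pi_gt_d2
  have hlt : 1 - Real.pi ^ 2 / 12 < 0.18 := by nlinarith
  have h1 := (h.eventually (gt_mem_nhds hlt)).and (eventually_ge_atTop 1)
  obtain ⟨n₀, hn₀⟩ := eventually_atTop.1 h1
  obtain ⟨n, hn, hS⟩ := frequently_large n₀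
  obtain ⟨h2, h3⟩ := hn₀ n hn
  have hn0 : (0 : ℝ) < (n : ℝ) ^ 2 := by positivity
  rw [div_lt_iff₀ hn0] at h2
  nlinarith

end Pool.Agent.Results.MP_17736e_nt.NotTheLimit
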